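import Pool.Agent.H288.ST.Main

set_option autoImplicit false

/-!
# Every minimal-degree polynomial Stein operator characterises `H_p(X)`

`X` is a standard Gaussian variable, `H_p` the `p`-th probabilists' Hermite polynomial, `Y = H_p(X)`
and `I` the support of `Y`. A polynomial differential operator `S f = ∑_{t ≤ T} p_t f^(t)` has
maximal polynomial degree `m(S)`; it is a polynomial Stein operator for `Y` if `E[S f(Y)] = 0` for all
`f` in its function class `F_{S,Y}`; `m_p` is the least value of `m(S)`.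

The theorem `result`: for every `p ≥ 1` every polynomial Stein operator `S` for `H_p(X)` with
`m(S) = m_p` characterises `H_p(X)`. The theorem `exists_minimal` (not part of the result) says that
such operators exist.
-/

open MeasureTheory ProbabilityTheory Polynomial Filter Topology

namespace Pool.Agent.Results.MP_0c6895_pr.MinimalStein

open Pool.Agent.H288

/-- `H_p`, the `p`-th (probabilists') Hermite polynomial, as a function on the real line. -/
noncomputable def H (p : ℕ) (x : ℝ) : ℝ := aeval x (hermite p)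

/-- The law of `Y = H_p(X)`, `X ~ N(0,1)`. -/
noncomputable def lawY (p : ℕ) : Measure ℝ := (gaussianReal 0 1).map (H p)

/-- `I`, the support of `Y = H_p(X)`. -/
def I (p : ℕ) : Set ℝ := (lawY p).support

/-- A differential operator `S f(y) = ∑_{t=0}^T p_t(y) f^(t)(y)` with real polynomials `p_0, …, p_T`,
not all zero (`coef t` is `p_t`; only `t ≤ T` matters). -/
structure PolyOp where
  T : ℕ
  coef : ℕ → ℝ[X]
  ne : ∃ t ≤ T, coef t ≠ 0

namespace PolyOp

/-- The maximal polynomial degree `m(S) = max_{0 ≤ t ≤ T} deg p_t`. -/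
noncomputable def m (S : PolyOp) : ℕ :=
  (Finset.range (S.T + 1)).sup fun t => (S.coef t).natDegree

/-- `S f` at the point `y` for a function `f` on the closed interval `J` (one-sided derivatives at an
end point of `J`). -/
noncomputable def app (S : PolyOp) (J : Set ℝ) (f : ℝ → ℝ) (y : ℝ) : ℝ :=
  ∑ t ∈ Finset.range (S.T + 1), (S.coef t).eval y * iteratedDerivWithin t f J y

/-- The function class `F_{S,Y}`: all `f ∈ C^T(I)` with `E|Y^j f^(t)(Y)| < ∞` for all `0 ≤ t ≤ T` and
`0 ≤ j ≤ m(S)`. -/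
def F (S : PolyOp) (p : ℕ) : Set (ℝ → ℝ) :=
  {f | ContDiffOn ℝ S.T f (I p) ∧ ∀ t ≤ S.T, ∀ j ≤ S.m,
    Integrable (fun y : ℝ => y ^ j * iteratedDerivWithin t f (I p) y) (lawY p)}

/-- `S` is a polynomial Stein operator for `Y = H_p(X)`. -/
def IsStein (S : PolyOp) (p : ℕ) : Prop :=
  ∀ f ∈ S.F p, ∫ y, S.app (I p) f y ∂(lawY p) = 0

/-- `S` characterises `Y = H_p(X)`: a random variable `W` with values in `I` (with law `ν`), such that
`E|S f(W)| < ∞` and `E[S f(W)] = 0` for all `f ∈ F_{S,Y}`, has the law of `Y`. -/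
def Characterises (S : PolyOp) (p : ℕ) : Prop :=
  ∀ ν : Measure ℝ, IsProbabilityMeasure ν → (∀ᵐ y ∂ν, y ∈ I p) →
    (∀ f ∈ S.F p, Integrable (S.app (I p) f) ν ∧ ∫ y, S.app (I p) f y ∂ν = 0) → ν = lawY p

end PolyOp

/-- `m_p`, the least value of `m(S)` over all polynomial Stein operators for `H_p(X)`. -/
noncomputable def mMin (p : ℕ) : ℕ := sInf {n | ∃ S : PolyOp, S.IsStein p ∧ S.m = n}

/-! ### Auxiliary facts -/

lemma I_cases (p : ℕ) (hp : 1 ≤ p) : I p = Set.univ ∨ ∃ a, I p = Set.Ici a :=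
  ST.J4.law_support p hp

lemma I_unique (p : ℕ) (hp : 1 ≤ p) : UniqueDiffOn ℝ (I p) := by
  rcases I_cases p hp with h | ⟨a, h⟩
  · rw [h]; exact uniqueDiffOn_univ
  · rw [h]; exact uniqueDiffOn_Ici a

lemma lawY_pow (p n : ℕ) : Integrable (fun y : ℝ => y ^ n) (lawY p) := ST.law_pow p n

instance lawY_prob (p : ℕ) : IsProbabilityMeasure (lawY p) := ST.law_prob p

lemma lawY_I (p : ℕ) : ∀ᵐ y ∂(lawY p), y ∈ I p := Measure.support_mem_ae

lemma natDegree_le_m (S : PolyOp) (t : ℕ) (ht : t ≤ S.T) : (S.coef t).natDegree ≤ S.m :=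
  Finset.le_sup (f := fun t => (S.coef t).natDegree) (Finset.mem_range.2 (Nat.lt_succ_of_le ht))

/-- derivatives of the real and imaginary parts of `e^{isy}` -/
lemma iter_exp (L : ℂ →L[ℝ] ℝ) (s : ℝ) (t : ℕ) :
    iteratedDeriv t (fun y : ℝ => L (Complex.exp (Complex.I * s * y))) =
      fun y : ℝ => L ((Complex.I * s) ^ t * Complex.exp (Complex.I * s * y)) := by
  induction t with
  | zero => funext y; simp
  | succ t ih =>
    rw [iteratedDeriv_succ, ih]
    funext y
    have h1 : HasDerivAt (fun y : ℝ => Complex.exp (Complex.I * s * y))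
        (Complex.exp (Complex.I * s * y) * (Complex.I * s)) y := by
      have h2 : HasDerivAt (fun y : ℝ => Complex.I * (s : ℂ) * (y : ℂ)) (Complex.I * s) y := by
        have := (Complex.ofRealCLM.hasDerivAt (x := y)).const_mul (Complex.I * (s : ℂ))
        simpa using this
      exact h2.cexp
    have h3 := L.hasFDerivAt.comp_hasDerivAt y (h1.const_mul ((Complex.I * (s : ℂ)) ^ t))
    refine h3.deriv.trans ?_
    congr 1
    ring

lemma contDiff_exp (L : ℂ →L[ℝ] ℝ) (s : ℝ) (n : ℕ) :
    ContDiff ℝ n (fun y : ℝ => L (Complex.exp (Complex.I * s * y))) := by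
  have h1 : ContDiff ℝ n (fun y : ℝ => Complex.exp (Complex.I * s * y)) := by
    refine ContDiff.cexp ?_
    exact contDiff_const.mul Complex.ofRealCLM.contDiff
  exact L.contDiff.comp h1

lemma norm_exp_one (s y : ℝ) : ‖Complex.exp (Complex.I * s * y)‖ = 1 := ST.norm_cexp_I s y

/-- the real and imaginary parts of `e^{isy}` lie in the class -/
lemma exp_mem (S : PolyOp) (p : ℕ) (hp : 1 ≤ p) (L : ℂ →L[ℝ] ℝ) (s : ℝ) :
    (fun y : ℝ => L (Complex.exp (Complex.I * s * y))) ∈ S.F p := by
  refine ⟨(contDiff_exp L s S.T).contDiffOn, fun t _ j _ => ?_⟩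
  have h1 : Integrable (fun y : ℝ => y ^ j * L ((Complex.I * s) ^ t *
      Complex.exp (Complex.I * s * y))) (lawY p) := by
    refine ((lawY_pow p j).norm.mul_const (‖L‖ * ‖(Complex.I * (s : ℂ)) ^ t‖)).mono' ?_ ?_
    · have : Continuous fun y : ℝ => y ^ j * L ((Complex.I * s) ^ t *
        Complex.exp (Complex.I * s * y)) := by fun_prop
      exact this.aestronglyMeasurable
    · refine Eventually.of_forall fun y => ?_
      rw [norm_mul]
      refine mul_le_mul_of_nonneg_left ?_ (norm_nonneg _)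
      refine (L.le_opNorm _).trans ?_
      rw [norm_mul, norm_exp_one, mul_one]
  refine h1.congr ?_
  filter_upwards [lawY_I p] with y hy
  rw [iteratedDerivWithin_eq_iteratedDeriv (I_unique p hp) (contDiff_exp L s t).contDiffAt hy,
    iter_exp]

/-- powers lie in the class -/
lemma pow_mem (S : PolyOp) (p : ℕ) (hp : 1 ≤ p) (n : ℕ) : (fun y : ℝ => y ^ n) ∈ S.F p := by
  refine ⟨(contDiff_id.pow n).contDiffOn, fun t _ j _ => ?_⟩
  have h1 : Integrable (fun y : ℝ => y ^ j * ((n.descFactorial t : ℝ) * y ^ (n - t))) (lawY p) := by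
    refine ((lawY_pow p (j + (n - t))).const_mul (n.descFactorial t : ℝ)).congr ?_
    refine Eventually.of_forall fun y => ?_
    simp only [pow_add]; ring
  refine h1.congr ?_
  filter_upwards [lawY_I p] with y hy
  rw [iteratedDerivWithin_pow hy (I_unique p hp)]

/-- from test functions to the complex exponentials -/
lemma exp_of (S : PolyOp) (p : ℕ) (hp : 1 ≤ p) (ν : Measure ℝ) [IsProbabilityMeasure ν]
    (hν : ∀ n : ℕ, Integrable (fun y : ℝ => y ^ n) ν) (hI : ∀ᵐ y ∂ν, y ∈ I p)
    (h : ∀ f ∈ S.F p, ∫ y, S.app (I p) f y ∂ν = 0) (s : ℝ) :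
    ∫ y : ℝ, ∑ t ∈ Finset.range (S.T + 1), (((S.coef t).eval y : ℝ) : ℂ) * (Complex.I * s) ^ t *
      Complex.exp (Complex.I * s * y) ∂ν = 0 := by
  have hpoly : ∀ c : ℝ[X], Integrable (fun y : ℝ => c.eval y) ν := by
    intro c
    induction c using Polynomial.induction_on' with
    | add a b ha hb =>
      refine (ha.add hb).congr (Eventually.of_forall fun y => ?_)
      simp [Polynomial.eval_add]
    | monomial n a =>
      refine ((hν n).const_mul a).congr (Eventually.of_forall fun y => ?_)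
      simp [Polynomial.eval_monomial]
  have hint : ∀ t, Integrable (fun y : ℝ => (((S.coef t).eval y : ℝ) : ℂ) * (Complex.I * s) ^ t *
      Complex.exp (Complex.I * s * y)) ν := by
    intro t
    refine ((hpoly (S.coef t)).norm.mul_const ‖(Complex.I * (s : ℂ)) ^ t‖).mono' ?_ ?_
    · have : Continuous fun y : ℝ => (((S.coef t).eval y : ℝ) : ℂ) * (Complex.I * s) ^ t *
        Complex.exp (Complex.I * s * y) := by fun_prop
      exact this.aestronglyMeasurable
    · refine Eventually.of_forall fun y => ?_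
      rw [norm_mul, norm_exp_one, mul_one, norm_mul, Complex.norm_real]
  have key : ∀ L : ℂ →L[ℝ] ℝ, L (∫ y : ℝ, ∑ t ∈ Finset.range (S.T + 1),
      (((S.coef t).eval y : ℝ) : ℂ) * (Complex.I * s) ^ t *
      Complex.exp (Complex.I * s * y) ∂ν) = 0 := by
    intro L
    rw [← L.integral_comp_comm (integrable_finsetSum _ fun t _ => hint t)]
    rw [← h _ (exp_mem S p hp L s)]
    refine integral_congr_ae ?_
    filter_upwards [hI] with y hy
    unfold PolyOp.app
    rw [map_sum]
    refine Finset.sum_congr rfl fun t _ => ?_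
    rw [iteratedDerivWithin_eq_iteratedDeriv (I_unique p hp) (contDiff_exp L s t).contDiffAt hy,
      iter_exp]
    have : (((S.coef t).eval y : ℝ) : ℂ) * (Complex.I * s) ^ t *
        Complex.exp (Complex.I * s * y) =
        ((S.coef t).eval y) • ((Complex.I * s) ^ t * Complex.exp (Complex.I * s * y)) := by
      rw [Complex.real_smul]; ring
    rw [this, map_smul, smul_eq_mul]
  exact Complex.ext (by simpa using key Complex.reCLM) (by simpa using key Complex.imCLM)

/-- an operator annihilating the exponentials is a polynomial Stein operator -/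
lemma stein_of_exp (S : PolyOp) (p : ℕ) (hp : 1 ≤ p)
    (hS : ∀ s : ℝ, ∫ y : ℝ, ∑ t ∈ Finset.range (S.T + 1),
      (((S.coef t).eval y : ℝ) : ℂ) * (Complex.I * s) ^ t * Complex.exp (Complex.I * s * y)
        ∂(lawY p) = 0) : S.IsStein p := by
  rintro f ⟨hf, hfi⟩
  exact ST.J1.strongStein (lawY p) (lawY_pow p) (I p) (I_cases p hp) (lawY_I p) S.T S.coef S.m
    (natDegree_le_m S) hS f hf hfi

/-- Polynomial Stein operators exist, and the least value `m_p` is attained. -/
theorem exists_minimal (p : ℕ) (hp : 1 ≤ p) : ∃ S : PolyOp, S.IsStein p ∧ S.m = mMin p := by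
  have hex : ∃ B : ℂ[X][X], B ≠ 0 ∧ ∀ s, ST.act B (charFun (ST.law p)) s = 0 :=
    ST.exists_ann p hp
  obtain ⟨B, hB, hB'⟩ := hex
  obtain ⟨T, c, hne, -, hs⟩ := ST.K6.op_to (ST.law p) (ST.law_pow p) B hB hB'
  have hS : (⟨T, c, hne⟩ : PolyOp).IsStein p := stein_of_exp ⟨T, c, hne⟩ p hp hs
  have hne' : {n | ∃ S : PolyOp, S.IsStein p ∧ S.m = n}.Nonempty := ⟨_, _, hS, rfl⟩
  exact Nat.sInf_mem hne'

/-- **Every polynomial Stein operator for `H_p(X)` of least maximal polynomial degree
characterises `H_p(X)`**, for every `p ≥ 1`. -/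
theorem result : ∀ p : ℕ, 1 ≤ p → ∀ S : PolyOp, S.IsStein p → S.m = mMin p →
    S.Characterises p := by
  intro p hp S hS hm ν hνp hI hW
  haveI := hνp
  -- all moments of `ν` are finite
  have hν : ∀ n : ℕ, Integrable (fun y : ℝ => y ^ n) ν := by
    refine ST.K5.moments S.T S.coef S.ne ν fun n => ?_
    refine ((hW _ (pow_mem S p hp n)).1).congr ?_
    filter_upwards [hI] with y hy
    unfold PolyOp.app
    refine Finset.sum_congr rfl fun t _ => ?_
    rw [iteratedDerivWithin_pow hy (I_unique p hp)]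
  have e1 := exp_of S p hp ν hν hI fun f hf => (hW f hf).2
  have e2 := exp_of S p hp (lawY p) (lawY_pow p) (lawY_I p) hS
  -- the operator on characteristic functions
  obtain ⟨L, hL0, hLdeg, hL⟩ := ST.K6.op_of S.T S.coef S.ne
  have hLν : ∀ s, ST.act L (charFun ν) s = 0 := fun s => by rw [hL ν hν s]; exact e1 s
  have hLμ : ∀ s, ST.act L (charFun (ST.law p)) s = 0 := fun s => by
    rw [hL (ST.law p) (ST.law_pow p) s]; exact e2 s
  have hsμ := ST.sm_charFun (ST.law p) (ST.law_pow p)
  have hsν := ST.sm_charFun ν hν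
  have hmin : ∀ B : ℂ[X][X], (∀ t, ST.act B (charFun (ST.law p)) t = 0) →
      B.degree < L.degree → B = 0 := by
    intro B hB hlt
    by_contra hB0
    obtain ⟨T, c, hne, hdeg, hs⟩ := ST.K6.op_to (ST.law p) (ST.law_pow p) B hB0 hB
    have hS' : (⟨T, c, hne⟩ : PolyOp).IsStein p := stein_of_exp ⟨T, c, hne⟩ p hp hs
    have h1 : mMin p ≤ (⟨T, c, hne⟩ : PolyOp).m := Nat.sInf_le ⟨_, hS', rfl⟩
    have h2 : (⟨T, c, hne⟩ : PolyOp).m ≤ B.natDegree := by
      unfold PolyOp.m
      refine Finset.sup_le fun t ht => hdeg t ?_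
      exact Nat.lt_succ_iff.1 (Finset.mem_range.1 ht)
    have h3 : B.natDegree < L.natDegree := natDegree_lt_natDegree hB0 hlt
    have h4 : L.natDegree = S.m := hLdeg
    omega
  exact ST.key p hp ν hν fun A hA => ST.ann (charFun (ST.law p))
    (fun t => charFun ν t - charFun (ST.law p) t) hsμ (ST.Sm.sub' hsν hsμ) L hL0 hLμ
    (fun t => by rw [ST.act_fsub L _ _ hsν hsμ, hLν, hLμ, sub_zero]) hmin A hA

end Pool.Agent.Results.MP_0c6895_pr.MinimalStein
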